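import Mathlib
import Pool.Agent.R623.AF.Stm3
import Pool.Agent.R623.AF.ARI2

/-!
Project AF (MP_ef6a16_nt), piece BK2: the lower bound for `|(-y/x)^p - 1|` for algebraic integers `x, y`
(the proof of `Pool/Agent/R771/AF_BK.lean` by helper771, with the product of the `max ‖σ x‖ ‖σ y‖`).
-/

set_option autoImplicit false

namespace Pool.Agent.R623.AF

open NumberField IsDedekindDomain

theorem BK2 : S_SCH → S_ZER → S_EXPR → S_ROU → S_LIO2 → S_NUM → S_BK2 := by
  intro hSCH hZER hEXPR hROU hLIO hNUM K _ _ x y p L h σ₀ hp hp3 hx hy hxi hyi hxy hh hL1 hL2 hLp hprod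
  by_contra hcon
  rw [not_lt] at hcon
  set d : ℕ := Module.finrank ℚ K with hd
  have hd1 : 1 ≤ d := Module.finrank_pos
  have hL16 : 16 ≤ L := by omega
  have hp2 : 2 ≤ p := hp.two_le
  have hpodd : Odd p := hp.odd_of_ne_two (by omega)
  set ζ : ℂ := -(σ₀ y) / σ₀ x with hζ
  have hσx : σ₀ x ≠ 0 := (map_ne_zero σ₀).mpr hx
  have hLR : (16 : ℝ) ≤ L := by exact_mod_cast hL16
  have hhR : (1 : ℝ) ≤ h := by exact_mod_cast hh
  have hdR : (1 : ℝ) ≤ d := by exact_mod_cast hd1
  have hL2R : 16 * (d : ℝ) ≤ L := by exact_mod_cast hL2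
  set N : ℝ := 339264 * h * L ^ 2 with hN
  have hhL2 : (L : ℝ) ^ 2 ≤ h * L ^ 2 := by nlinarith [sq_nonneg (L : ℝ)]
  have hL1sq : (1 : ℝ) ≤ (L : ℝ) ^ 2 := by nlinarith
  have hhL : (h : ℝ) ≤ h * L ^ 2 := le_mul_of_one_le_right (by linarith) hL1sq
  have hLL : (L : ℝ) ≤ L ^ 2 := by nlinarith
  have hN1 : (h : ℝ) + d + 1 < N := by rw [hN]; nlinarith
  have hNL : (L : ℝ) < N := by rw [hN]; nlinarith
  have hN0 : 0 < N := by linarith
  -- the logarithm
  have hexp1 : Real.exp (-(N + 1)) ≤ 1 / 2 * Real.exp (-N) := by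
    have h1 : Real.exp (-(N + 1)) = Real.exp (-1) * Real.exp (-N) := by
      rw [← Real.exp_add]
      congr 1
      ring
    rw [h1]
    refine mul_le_mul_of_nonneg_right ?_ (Real.exp_pos _).le
    have h2 : (2 : ℝ) ≤ Real.exp 1 := by
      have := Real.add_one_le_exp (1 : ℝ)
      linarith
    rw [Real.exp_neg]
    rw [one_div]
    exact inv_anti₀ (by norm_num) h2
  have hexpN : Real.exp (-N) ≤ 1 := by
    rw [Real.exp_le_one_iff]
    linarith
  have hhalf : ‖ζ ^ p - 1‖ ≤ 1 / 2 := by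
    refine hcon.trans (hexp1.trans ?_)
    linarith
  obtain ⟨k, Λ, hkp, hΛ, hζexp, hexpΛ⟩ := hEXPR p ζ (by omega) hhalf
  have hΛN : ‖Λ‖ ≤ Real.exp (-N) := by
    refine hΛ.trans ?_
    have := hcon.trans hexp1
    linarith
  have hΛ1 : ‖Λ‖ ≤ 1 := hΛN.trans hexpN
  have hnorm0 : ζ ^ p ≠ 1 := by
    intro h1
    rw [hζ, div_pow, hpodd.neg_pow, div_eq_one_iff_eq (pow_ne_zero p hσx)] at h1
    have h2 : σ₀ (x ^ p + y ^ p) = 0 := by
      rw [map_add, map_pow, map_pow, ← h1]
      ring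
    exact hxy ((map_eq_zero σ₀).1 h2)
  have hΛ0 : Λ ≠ 0 := by
    intro h0
    rw [h0, Complex.exp_zero] at hexpΛ
    exact hnorm0 hexpΛ.symm
  have hs0 : x + y ≠ 0 := by
    intro h0
    have h1 : y = -x := by
      linear_combination h0
    apply hxy
    rw [h1, hpodd.neg_pow, add_neg_cancel]
  rcases Nat.eq_zero_or_pos k with hk | hk
  · -- k = 0
    have hint0 : IsIntegral ℤ (x + y) := hxi.add hyi
    have hζ0 : ζ = Complex.exp (Λ / p) := by
      rw [hζexp, hk]
      congr 1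
      simp
    have h1 := hLIO K x y p h σ₀ Λ (by omega) hx hy hs0 hint0 hprod hζ0 hΛ1
    have h2 := h1.trans hΛN
    rw [Real.exp_le_exp] at h2
    linarith
  · -- k > 0
    have hLΛ : (L : ℝ) * ‖Λ‖ < 1 := by
      have h1 : Real.exp (-N) * (N + 1) ≤ 1 := by
        have h2 := Real.add_one_le_exp N
        have h3 : Real.exp (-N) * Real.exp N = 1 := by
          rw [← Real.exp_add, neg_add_cancel, Real.exp_zero]
        have h4 := Real.exp_pos (-N)
        nlinarith
      have h4 := Real.exp_pos (-N)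
      have h5 : (L : ℝ) * ‖Λ‖ ≤ L * Real.exp (-N) :=
        mul_le_mul_of_nonneg_left hΛN (by linarith)
      nlinarith
    have hrou := hROU p k L Λ (by omega) hΛ0 hLΛ
    have hcast : ((339264 * h * L : ℕ) : ℝ) * (L : ℝ) = N := by
      rw [hN]
      push_cast
      ring
    have hari := Pool.Agent.R623.AF2.ARI2 hSCH hZER K x y p k (339264 * h * L) L (600 * h * L) (577 * L) h σ₀ Λ hp hx hy
      hs0 hk hkp (Nat.mul_pos (Nat.mul_pos (by norm_num) hh) (by omega)) (by omega) (by omega) (by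
        have h1 : 0 < h * L * L := by positivity
        calc L * (339264 * h * L - 1) ≤ L * (339264 * h * L) :=
              Nat.mul_le_mul_left _ (Nat.sub_le _ _)
          _ = 339264 * (h * L * L) := by ring
          _ < 346200 * (h * L * L) := by omega
          _ = 600 * h * L * (577 * L) := by ring)
      (fun i j _ => ((hxi.add hyi).mul (hxi.pow i)).mul (hyi.pow j)) hprod hζexp
      (by rw [hcast]; exact hΛN) (by
        intro e he heL
        have h1 := hrou e he heL
        rw [← hζexp] at h1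
        exact h1)
    have hnum := hNUM d p L h hd1 hp2 hh hL1 hL2
    exact absurd hari (not_le.mpr hnum)

end Pool.Agent.R623.AF
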