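import Pool.Agent.R739.SF.Defs

/-! Project SF (helper739), piece VAL (helper398). -/

set_option autoImplicit false

namespace Pool.Agent.R398

open Finset

theorem SF_VAL : Pool.Agent.R739.SF.STM_VAL := by
  intro b r hb hr hrb M t0 h hh
  have : Fact r.Prime := ⟨hr⟩
  set v := padicValNat r b with hv
  have hb0 : b ≠ 0 := by omega
  have hv1 : 1 ≤ v := one_le_padicValNat_of_dvd hb0 hrb
  have hbv : (r : ℤ) ^ v ∣ (b : ℤ) := by exact_mod_cast pow_padicValNat_dvd
  set w := padicValInt r h with hw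
  have hhw : (r : ℤ) ^ w ∣ h := (padicValInt_dvd_iff w h).2 (Or.inr le_rfl)
  refine ⟨M + w + t0 + 1, ?_⟩
  intro s n K hG hns hsep z hz hdvd
  by_contra hcon
  push Not at hcon
  obtain ⟨k1, hk1, hz1⟩ := hcon
  obtain ⟨k, hkmem, hkmax⟩ := Finset.exists_max_image (K.filter fun k => z k ≠ 0) id
    ⟨k1, by simp [hk1, hz1]⟩
  rw [Finset.mem_filter] at hkmem
  obtain ⟨hk, hzk⟩ := hkmem
  set e := padicValInt r (z k) with he
  have heM : e < M := by
    have h1 : (r : ℤ) ^ e ∣ z k := (padicValInt_dvd_iff e (z k)).2 (Or.inr le_rfl)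
    have h2 : (r : ℤ) ^ e ≤ |z k| := Int.le_of_dvd (abs_pos.2 hzk) ((dvd_abs _ _).2 h1)
    have h3 : (r : ℤ) ^ e ≤ M := h2.trans (hz k hk)
    have h4 : r ^ e ≤ M := by exact_mod_cast h3
    have h5 : e < r ^ e := Nat.lt_pow_self hr.one_lt
    omega
  set Q := w + e + v * (s - n k) + 1 with hQ
  have hnk := hG k hk
  have hnks := hns k hk
  have hQle : Q ≤ v * s - t0 := by
    have h1 : v * s = v * (s - n k) + v * n k := by rw [← Nat.mul_add, Nat.sub_add_cancel hnks]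
    have h2 : n k ≤ v * n k := Nat.le_mul_of_pos_left _ hv1
    omega
  have hsum : (r : ℤ) ^ Q ∣ h * ∑ k ∈ K, z k * (b : ℤ) ^ (s - n k) := (pow_dvd_pow _ hQle).trans hdvd
  have hother : (r : ℤ) ^ Q ∣ ∑ l ∈ K.erase k, h * (z l * (b : ℤ) ^ (s - n l)) := by
    refine Finset.dvd_sum fun l hl => ?_
    rw [Finset.mem_erase] at hl
    by_cases hzl : z l = 0
    · simp [hzl]
    · have hlt : l < k := by
        have h6 := hkmax l (by simp [hl.2, hzl])
        exact lt_of_le_of_ne h6 hl.1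
      have h1 := hsep l hl.2 k hk hlt
      have h2 : (r : ℤ) ^ (v * (s - n l)) ∣ (b : ℤ) ^ (s - n l) := by
        rw [pow_mul]
        exact pow_dvd_pow_of_dvd hbv _
      have h3 : Q ≤ w + v * (s - n l) := by
        have h4 : s - n l = (s - n k) + (n k - n l) := by omega
        rw [h4, Nat.mul_add]
        have h5 : n k - n l ≤ v * (n k - n l) := Nat.le_mul_of_pos_left _ hv1
        omega
      calc (r : ℤ) ^ Q ∣ (r : ℤ) ^ (w + v * (s - n l)) := pow_dvd_pow _ h3
        _ = (r : ℤ) ^ w * (r : ℤ) ^ (v * (s - n l)) := pow_add _ _ _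
        _ ∣ h * (z l * (b : ℤ) ^ (s - n l)) := mul_dvd_mul hhw (Dvd.dvd.mul_left h2 _)
  have hk' : (r : ℤ) ^ Q ∣ h * (z k * (b : ℤ) ^ (s - n k)) := by
    have h1 : h * ∑ k ∈ K, z k * (b : ℤ) ^ (s - n k) = h * (z k * (b : ℤ) ^ (s - n k)) +
        ∑ l ∈ K.erase k, h * (z l * (b : ℤ) ^ (s - n l)) := by
      rw [← Finset.add_sum_erase K _ hk, mul_add, Finset.mul_sum]
    rw [h1] at hsum
    exact (dvd_add_left hother).1 hsum
  have hbz : (b : ℤ) ^ (s - n k) ≠ 0 := pow_ne_zero _ (by exact_mod_cast hb0)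
  rw [padicValInt_dvd_iff] at hk'
  rcases hk' with h0 | h0
  · exact (mul_ne_zero hh (mul_ne_zero hzk hbz)) h0
  · have h7 : padicValInt r ((b : ℤ) ^ (s - n k)) = (s - n k) * v := by
      have h8 : ((b : ℤ) ^ (s - n k)) = ((b ^ (s - n k) : ℕ) : ℤ) := by push_cast; rfl
      rw [h8, padicValInt.of_nat, padicValNat.pow]
    rw [padicValInt.mul hh (mul_ne_zero hzk hbz), padicValInt.mul hzk hbz, h7, ← hw, ← he,
      mul_comm (s - n k) v] at h0
    omega

end Pool.Agent.R398
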